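import Mathlib

/-!
# MP_484523_pr: a nontrivial attractor of deterministic NEC-voting

Configurations are maps `ℤ × ℤ → Bool` (`true` is `1`, `false` is `0`).
We show that the configuration which is `1` exactly on the union of the two half planes
`2 x + y ≤ 0` and `x + 2 y ≤ 0` is an attractor.

Idea of the proof.  If `h : ℤ → ℤ` is non-increasing then one step of NEC-voting maps the region
on or below the graph of `h` to the region on or below the graph of `x ↦ max (h x - 1) (h (x+1))`.
Hence after `n` steps the height `h_n` satisfies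
`h_n x + x + n = max { h z + z | x ≤ z ≤ x + n }`.
If `h z + z → +∞` as `z → ±∞`, a finite change of `h` is invisible in this formula as soon as `n`
is large.  A finite perturbation of the configuration is squeezed between two such changes.
-/

set_option autoImplicit false

namespace Pool.Agent.Results.MP_484523_pr.NontrivialAttractor

/-- Majority of three bits. -/
def maj (a b c : Bool) : Bool := (a && b) || (b && c) || (a && c)

/-- One step of deterministic NEC-voting: the new state of the site `s` is the majority of the
old states of `s`, of its east neighbour `s + (1, 0)` and of its north neighbour `s + (0, 1)`. -/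
def step (y : ℤ × ℤ → Bool) : ℤ × ℤ → Bool :=
  fun s => maj (y s) (y (s + (1, 0))) (y (s + (0, 1)))

/-- The state of the trajectory of `y` after `n` steps, that is, at time `t = n - 1`:
`state y 0 = y` is the configuration at time `-1`. -/
def state (y : ℤ × ℤ → Bool) : ℕ → (ℤ × ℤ → Bool)
  | 0 => y
  | n + 1 => step (state y n)

/-- The trajectory of the initial configuration `y`, a function on space-time. The space-time
point `(s, n)`, with `n : ℕ`, stands for the site `s` at time `t = n - 1`, so that `n = 0` is the
initial time `-1`. -/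
def TR (y : ℤ × ℤ → Bool) : (ℤ × ℤ) × ℕ → Bool := fun p => state y p.2 p.1

/-- Two 0-1 functions are finite perturbations of each other if they differ at only finitely
many points. -/
def FinitePerturbation {α : Type} (f g : α → Bool) : Prop := {a | f a ≠ g a}.Finite

/-- The initial configuration `y` is an attractor if, for every finite perturbation `y'` of `y`,
the trajectory of `y'` is a finite perturbation of the trajectory of `y`. -/
def IsAttractor (y : ℤ × ℤ → Bool) : Prop :=
  ∀ y' : ℤ × ℤ → Bool, FinitePerturbation y' y → FinitePerturbation (TR y') (TR y)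

/-! ### Iterating the step -/

lemma maj_mono {a b c a' b' c' : Bool} (ha : a ≤ a') (hb : b ≤ b') (hc : c ≤ c') :
    maj a b c ≤ maj a' b' c' := by
  revert a b c a' b' c'
  decide

lemma step_mono : Monotone step := by
  intro y y' h s
  exact maj_mono (h _) (h _) (h _)

lemma state_mono (n : ℕ) : Monotone (fun y => state y n) := by
  induction n with
  | zero => intro y y' h; exact h
  | succ n ih => intro y y' h; exact step_mono (ih h)

/-- The region on or below the graph of `h`. -/
def under (h : ℤ → ℤ) : ℤ × ℤ → Bool := fun s => decide (s.2 ≤ h s.1)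

/-- The evolution of a non-increasing graph. -/
def nxt (h : ℤ → ℤ) : ℤ → ℤ := fun x => max (h x - 1) (h (x + 1))

lemma nxt_antitone {h : ℤ → ℤ} (hh : Antitone h) : Antitone (nxt h) := by
  intro a b hab
  unfold nxt
  have h1 := hh hab
  have h2 : h (b + 1) ≤ h (a + 1) := hh (by omega)
  omega

lemma step_under {h : ℤ → ℤ} (hh : Antitone h) : step (under h) = under (nxt h) := by
  funext s
  obtain ⟨x, y⟩ := s
  have h1 : h (x + 1) ≤ h x := hh (by omega)
  simp only [step, under, nxt, maj, Prod.mk_add_mk, add_zero]
  rw [Bool.eq_iff_iff]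
  simp only [Bool.or_eq_true, Bool.and_eq_true, decide_eq_true_eq, le_max_iff]
  omega

/-- The height after `n` steps. -/
def ht (h : ℤ → ℤ) : ℕ → (ℤ → ℤ)
  | 0 => h
  | n + 1 => nxt (ht h n)

lemma ht_antitone {h : ℤ → ℤ} (hh : Antitone h) (n : ℕ) : Antitone (ht h n) := by
  induction n with
  | zero => exact hh
  | succ n ih => exact nxt_antitone ih

lemma state_under {h : ℤ → ℤ} (hh : Antitone h) (n : ℕ) :
    state (under h) n = under (ht h n) := by
  induction n with
  | zero => rfl
  | succ n ih =>
    change step (state (under h) n) = under (nxt (ht h n))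
    rw [ih, step_under (ht_antitone hh n)]

lemma le_ht (h : ℤ → ℤ) (n : ℕ) : ∀ x c : ℤ,
    c ≤ ht h n x ↔ ∃ z, x ≤ z ∧ z ≤ x + n ∧ c + x + n ≤ h z + z := by
  induction n with
  | zero =>
    intro x c
    constructor
    · intro hc
      refine ⟨x, le_refl _, by simp, ?_⟩
      simp only [ht] at hc
      push_cast
      omega
    · rintro ⟨z, h1, h2, h3⟩
      have : z = x := by push_cast at h2; omega
      subst this
      simp only [ht]
      push_cast at h3
      omega
  | succ n ih =>
    intro x c
    have key : c ≤ ht h (n + 1) x ↔ (c + 1 ≤ ht h n x ∨ c ≤ ht h n (x + 1)) := by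
      simp only [ht, nxt, le_max_iff]
      constructor
      · rintro (h1 | h1)
        · left; omega
        · right; exact h1
      · rintro (h1 | h1)
        · left; omega
        · right; exact h1
    rw [key, ih, ih]
    push_cast
    constructor
    · rintro (⟨z, h1, h2, h3⟩ | ⟨z, h1, h2, h3⟩)
      · exact ⟨z, h1, by omega, by omega⟩
      · exact ⟨z, by omega, by omega, by omega⟩
    · rintro ⟨z, h1, h2, h3⟩
      by_cases hz : z ≤ x + n
      · left; exact ⟨z, h1, hz, by omega⟩
      · right; exact ⟨z, by omega, by omega, by omega⟩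

/-- Merging: two graphs that agree off a finite window and are large (after adding the identity)
outside merge in finite time. -/
lemma merge {h g : ℤ → ℤ} {R : ℤ}
    (hagree : ∀ x, x < -R ∨ R < x → h x = g x)
    (B : ℤ) (hB : ∀ z, -R ≤ z → z ≤ R → h z + z ≤ B ∧ g z + z ≤ B)
    (S : ℤ) (hS : R < S) (h1 : B ≤ h S + S) (h2 : B ≤ h (-S) + (-S))
    (n : ℕ) (hn : 2 * S ≤ n) : ht h n = ht g n := by
  have aux : ∀ h g : ℤ → ℤ, (∀ x, x < -R ∨ R < x → h x = g x) →
      (∀ z, -R ≤ z → z ≤ R → h z + z ≤ B) → B ≤ g S + S → B ≤ g (-S) + (-S) →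
      ∀ x c, c ≤ ht h n x → c ≤ ht g n x := by
    intro h g hag hB1 hg1 hg2 x c hc
    rw [le_ht] at hc ⊢
    obtain ⟨z, hz1, hz2, hz3⟩ := hc
    by_cases hz : z < -R ∨ R < z
    · refine ⟨z, hz1, hz2, ?_⟩
      rw [← hag z hz]; exact hz3
    · push Not at hz
      have hBz := hB1 z hz.1 hz.2
      by_cases hx : x ≤ -S
      · exact ⟨-S, hx, by omega, by omega⟩
      · exact ⟨S, by omega, by omega, by omega⟩
  funext x
  have e1 : h S = g S := hagree S (Or.inr hS)
  have e2 : h (-S) = g (-S) := hagree (-S) (Or.inl (by omega))
  apply le_antisymm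
  · exact aux h g hagree (fun z a b => (hB z a b).1) (by omega) (by omega) x _ le_rfl
  · exact aux g h (fun x hx => (hagree x hx).symm) (fun z a b => (hB z a b).2) h1 h2 x _ le_rfl

/-! ### The wedge -/

/-- The height function of the wedge. -/
def hw : ℤ → ℤ := fun x => max (-2 * x) ((-x) / 2)

/-- The wedge: the union of two half planes. -/
def wedge : ℤ × ℤ → Bool := fun s => decide (2 * s.1 + s.2 ≤ 0 ∨ s.1 + 2 * s.2 ≤ 0)

lemma wedge_eq : wedge = under hw := by
  funext s
  obtain ⟨x, y⟩ := s
  simp only [wedge, under, hw]
  rw [Bool.eq_iff_iff]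
  simp only [decide_eq_true_eq, le_max_iff]
  omega

lemma hw_antitone : Antitone hw := by
  intro a b hab
  unfold hw
  omega

/-- Upper comparison graph. -/
def up (M : ℤ) : ℤ → ℤ := fun x => if x ≤ M then max (hw x) M else hw x

/-- Lower comparison graph. -/
def lo (M : ℤ) : ℤ → ℤ := fun x => if -M ≤ x then min (hw x) (-M - 1) else hw x

lemma up_antitone {M : ℤ} (hM : 0 ≤ M) : Antitone (up M) := by
  intro a b hab
  have h1 := hw_antitone hab
  unfold up
  split_ifs with h2 h3 <;> omega

lemma lo_antitone {M : ℤ} (hM : 0 ≤ M) : Antitone (lo M) := by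
  intro a b hab
  have h1 := hw_antitone hab
  unfold lo
  split_ifs with h2 h3 <;> omega

lemma up_merge {M : ℤ} (hM : 0 ≤ M) (n : ℕ) (hn : 20 * M + 20 ≤ n) :
    ht (up M) n = ht hw n := by
  refine merge (R := M) ?_ (4 * M) ?_ (10 * M + 10) (by omega) ?_ ?_ n (by omega)
  · intro x hx
    unfold up hw
    split_ifs with h1 <;> omega
  · intro z h1 h2
    unfold up hw
    split_ifs <;> omega
  · unfold up hw
    split_ifs with h1 <;> omega
  · unfold up hw
    split_ifs with h1 <;> omega

lemma lo_merge {M : ℤ} (hM : 0 ≤ M) (n : ℕ) (hn : 100 * M + 100 ≤ n) :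
    ht (lo M) n = ht hw n := by
  refine merge (R := 2 * M + 2) ?_ (4 * M + 4) ?_ (20 * M + 20) (by omega) ?_ ?_ n (by omega)
  · intro x hx
    unfold lo hw
    split_ifs with h1 <;> omega
  · intro z h1 h2
    unfold lo hw
    split_ifs <;> omega
  · unfold lo hw
    split_ifs with h1 <;> omega
  · unfold lo hw
    split_ifs with h1 <;> omega

/-- After finitely many steps the perturbed wedge coincides with the unperturbed one. -/
lemma state_eq {M : ℤ} (hM : 0 ≤ M) (y' : ℤ × ℤ → Bool)
    (hy : ∀ s : ℤ × ℤ, y' s ≠ wedge s → (-M ≤ s.1 ∧ s.1 ≤ M) ∧ (-M ≤ s.2 ∧ s.2 ≤ M))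
    (n : ℕ) (hn : 100 * M + 100 ≤ n) : state y' n = state wedge n := by
  have hup : y' ≤ under (up M) := by
    intro s
    rw [Bool.le_iff_imp]
    intro hs
    simp only [under, decide_eq_true_eq]
    by_cases h : y' s = wedge s
    · rw [h, wedge_eq] at hs
      simp only [under, decide_eq_true_eq] at hs
      unfold up
      split_ifs <;> omega
    · have := hy s h
      unfold up
      split_ifs <;> omega
  have hlo : under (lo M) ≤ y' := by
    intro s
    rw [Bool.le_iff_imp]
    intro hs
    simp only [under, decide_eq_true_eq] at hs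
    by_cases h : y' s = wedge s
    · rw [h, wedge_eq]
      simp only [under, decide_eq_true_eq]
      unfold lo at hs
      split_ifs at hs <;> omega
    · have := hy s h
      unfold lo at hs
      split_ifs at hs <;> omega
  have h1 : state y' n ≤ state wedge n := by
    calc state y' n ≤ state (under (up M)) n := state_mono n hup
      _ = state wedge n := by
        rw [state_under (up_antitone hM), up_merge hM n (by omega), wedge_eq,
          state_under hw_antitone]
  have h2 : state wedge n ≤ state y' n := by
    calc state wedge n = state (under (lo M)) n := by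
          rw [state_under (lo_antitone hM), lo_merge hM n (by omega), wedge_eq,
            state_under hw_antitone]
      _ ≤ state y' n := state_mono n hlo
  exact le_antisymm h1 h2

/-- At each time the set of differences is finite. -/
lemma diff_finite (y y' : ℤ × ℤ → Bool) (h : {s | y' s ≠ y s}.Finite) (n : ℕ) :
    {s | state y' n s ≠ state y n s}.Finite := by
  induction n with
  | zero => exact h
  | succ n ih =>
    have hsub : {s | state y' (n + 1) s ≠ state y (n + 1) s} ⊆
        {s | state y' n s ≠ state y n s} ∪
        ((fun s : ℤ × ℤ => s - (1, 0)) '' {s | state y' n s ≠ state y n s} ∪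
        (fun s : ℤ × ℤ => s - (0, 1)) '' {s | state y' n s ≠ state y n s}) := by
      intro s hs
      by_contra hcon
      simp only [Set.mem_union, Set.mem_image, not_or, not_exists, not_and] at hcon
      obtain ⟨h0, h1, h2⟩ := hcon
      apply hs
      have e0 : state y' n s = state y n s := by
        by_contra h3; exact h0 h3
      have e1 : state y' n (s + (1, 0)) = state y n (s + (1, 0)) := by
        by_contra h3
        exact h1 (s + (1, 0)) h3 (by simp)
      have e2 : state y' n (s + (0, 1)) = state y n (s + (0, 1)) := by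
        by_contra h3
        exact h2 (s + (0, 1)) h3 (by simp)
      simp only [state, step, e0, e1, e2]
    exact (ih.union ((ih.image _).union (ih.image _))).subset hsub

theorem wedge_attractor : IsAttractor wedge := by
  intro y' hy'
  unfold FinitePerturbation at hy' ⊢
  -- a box containing all differences
  obtain ⟨M, hM, hbox⟩ : ∃ M : ℤ, 0 ≤ M ∧
      ∀ s : ℤ × ℤ, y' s ≠ wedge s → (-M ≤ s.1 ∧ s.1 ≤ M) ∧ (-M ≤ s.2 ∧ s.2 ≤ M) := by
    obtain ⟨K, hK⟩ := (hy'.image (fun s : ℤ × ℤ => |s.1| + |s.2|)).bddAbove
    refine ⟨max K 0, le_max_right _ _, ?_⟩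
    intro s hs
    have h1 : |s.1| + |s.2| ≤ K := hK ⟨s, hs, rfl⟩
    have h2 := abs_nonneg s.1
    have h3 := abs_nonneg s.2
    have h4 := neg_abs_le s.1
    have h5 := le_abs_self s.1
    have h6 := neg_abs_le s.2
    have h7 := le_abs_self s.2
    omega
  obtain ⟨N, hN⟩ : ∃ N : ℕ, 100 * M + 100 ≤ N := ⟨(100 * M + 100).toNat, by omega⟩
  have hsub : {p : (ℤ × ℤ) × ℕ | TR y' p ≠ TR wedge p} ⊆
      ⋃ n ∈ Finset.range N, (fun s : ℤ × ℤ => (s, n)) '' {s | state y' n s ≠ state wedge n s} := by
    rintro ⟨s, n⟩ hp
    simp only [TR, Set.mem_setOf_eq] at hp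
    simp only [Set.mem_iUnion, Set.mem_image, Finset.mem_range, Set.mem_setOf_eq]
    refine ⟨n, ?_, s, hp, rfl⟩
    by_contra hn
    push Not at hn
    apply hp
    rw [state_eq hM y' hbox n (by omega)]
  refine Set.Finite.subset ?_ hsub
  apply Set.Finite.biUnion (Finset.finite_toSet _)
  intro n _
  exact (diff_finite wedge y' hy' n).image _

/-- There is an attractor of deterministic NEC-voting with infinitely many ones and infinitely
many zeros: the configuration which is `1` exactly on the union of the half planes
`2 x + y ≤ 0` and `x + 2 y ≤ 0`. -/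
theorem result :
    ∃ y : ℤ × ℤ → Bool,
      (∀ s : ℤ × ℤ, y s = true ↔ (2 * s.1 + s.2 ≤ 0 ∨ s.1 + 2 * s.2 ≤ 0)) ∧
      IsAttractor y ∧
      {s : ℤ × ℤ | y s = true}.Infinite ∧ {s : ℤ × ℤ | y s = false}.Infinite := by
  refine ⟨wedge, ?_, wedge_attractor, ?_, ?_⟩
  · intro s
    simp [wedge]
  · apply Set.infinite_of_injective_forall_mem (f := fun n : ℕ => ((-(n : ℤ), 0) : ℤ × ℤ))
    · intro a b hab
      simpa using hab
    · intro n
      simp only [Set.mem_setOf_eq, wedge, decide_eq_true_eq]
      left
      omega
  · apply Set.infinite_of_injective_forall_mem (f := fun n : ℕ => (((n : ℤ) + 1, 0) : ℤ × ℤ))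
    · intro a b hab
      simpa using hab
    · intro n
      simp only [Set.mem_setOf_eq, wedge, decide_eq_false_iff_not]
      omega

end Pool.Agent.Results.MP_484523_pr.NontrivialAttractor
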